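import Pool.Agent.W289.ZS.Stm

namespace W998.ZS

open Finset W289.ZS

universe u

variable {G : Type u} [Group G] {n : ℕ}

theorem interval (g : Fin n → G) (a : G) (K : ℕ → Finset (Fin n)) (e : ℕ → ℤ) (p : ℕ)
    (hdisj : ∀ i < p, ∀ j < p, i ≠ j → Disjoint (K i) (K j))
    (hl : ∀ i < p, ∃ l : List (Fin n), l.Nodup ∧ l.toFinset = K i ∧ (l.map g).prod = a ^ (e i))
    (hw : ∀ i < p, ∑ k ∈ K i, (1 : ℚ) / (orderOf (g k) : ℚ) ≤ 1 / (orderOf a : ℚ))
    (i m : ℕ) (him : i + m ≤ p) :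
    ∃ l : List (Fin n), l.Nodup ∧ l.toFinset = (Ico i (i + m)).biUnion K ∧
      (l.map g).prod = a ^ (∑ k ∈ Ico i (i + m), e k) ∧
      ∑ k ∈ (Ico i (i + m)).biUnion K, (1 : ℚ) / (orderOf (g k) : ℚ)
        ≤ (m : ℚ) * (1 / (orderOf a : ℚ)) := by
  induction m with
  | zero => exact ⟨[], by simp⟩
  | succ m ih =>
    obtain ⟨l, h1, h2, h3, h4⟩ := ih (by omega)
    obtain ⟨l', h1', h2', h3'⟩ := hl (i + m) (by omega)
    have hd : Disjoint ((Ico i (i + m)).biUnion K) (K (i + m)) := by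
      rw [Finset.disjoint_biUnion_left]
      intro x hx
      rw [Finset.mem_Ico] at hx
      exact hdisj x (by omega) (i + m) (by omega) (by omega)
    have hI : Ico i (i + (m + 1)) = insert (i + m) (Ico i (i + m)) := by
      ext x; simp only [Finset.mem_Ico, Finset.mem_insert]; omega
    have hU : (Ico i (i + (m + 1))).biUnion K = (Ico i (i + m)).biUnion K ∪ K (i + m) := by
      rw [hI, Finset.biUnion_insert, Finset.union_comm]
    refine ⟨l ++ l', ?_, ?_, ?_, ?_⟩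
    · rw [List.nodup_append']
      refine ⟨h1, h1', ?_⟩
      rw [← h2, ← h2'] at hd
      exact List.disjoint_toFinset_iff_disjoint.1 hd
    · rw [List.toFinset_append, h2, h2', hU]
    · rw [List.map_append, List.prod_append, h3, h3', hI,
        Finset.sum_insert (by simp), add_comm (e (i + m)), zpow_add]
    · rw [hU, Finset.sum_union hd]
      have := hw (i + m) (by omega)
      push_cast
      linarith

theorem move : TaskMove.{u} := by
  intro G _ _ n g a p hp hpa F hF hGood hDis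
  classical
  obtain ⟨F', hF'F, hF'c⟩ := Finset.exists_subset_card_eq hF
  let E : Fin p ≃ F' := (Finset.equivFinOfCardEq hF'c).symm
  have hpos : 0 < p := hp.pos
  have ho : 0 < orderOf a := orderOf_pos a
  let K : ℕ → Finset (Fin n) := fun i => if h : i < p then (E ⟨i, h⟩ : Finset (Fin n)) else ∅
  have hKm : ∀ i < p, K i ∈ F := by
    intro i hi
    simp only [K, dif_pos hi]
    exact hF'F (E ⟨i, hi⟩).2
  have hKd : ∀ i < p, ∀ j < p, i ≠ j → Disjoint (K i) (K j) := by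
    intro i hi j hj hij
    apply hDis _ (hKm i hi) _ (hKm j hj)
    simp only [K, dif_pos hi, dif_pos hj]
    intro h
    have h' := E.injective (Subtype.ext h)
    exact hij (Fin.mk.inj_iff.1 h')
  have hex : ∀ i, ∃ e : ℤ, i < p → ∃ l : List (Fin n), l.Nodup ∧ l.toFinset = K i ∧
      (l.map g).prod = a ^ e := by
    intro i
    by_cases hi : i < p
    · obtain ⟨-, ⟨l, h1, h2, h3⟩, -⟩ := hGood _ (hKm i hi)
      obtain ⟨e, he⟩ := Subgroup.mem_zpowers_iff.1 h3
      exact ⟨e, fun _ => ⟨l, h1, h2, he.symm⟩⟩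
    · exact ⟨0, fun h => absurd h hi⟩
  choose e he using hex
  have key := interval g a K e p hKd he (fun i hi => (hGood _ (hKm i hi)).2.2)
  -- pigeonhole
  have hpig : ∃ i j : ℕ, i < j ∧ j ≤ p ∧ (p : ℤ) ∣ ∑ k ∈ Ico i j, e k := by
    have : NeZero p := ⟨hp.ne_zero⟩
    obtain ⟨x, y, hxy, hf⟩ := Fintype.exists_ne_map_eq_of_card_lt
      (fun j : Fin (p + 1) => ((∑ k ∈ range (j : ℕ), e k : ℤ) : ZMod p))
      (by rw [ZMod.card, Fintype.card_fin]; omega)
    have main : ∀ x y : Fin (p + 1), x < y →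
        ((∑ k ∈ range (x : ℕ), e k : ℤ) : ZMod p) = ((∑ k ∈ range (y : ℕ), e k : ℤ) : ZMod p) →
        ∃ i j : ℕ, i < j ∧ j ≤ p ∧ (p : ℤ) ∣ ∑ k ∈ Ico i j, e k := by
      intro x y hxy hf
      refine ⟨x, y, hxy, by omega, ?_⟩
      rw [← ZMod.intCast_zmod_eq_zero_iff_dvd]
      rw [Finset.sum_Ico_eq_sub _ (le_of_lt (show (x : ℕ) < y from hxy))]
      rw [Int.cast_sub, hf, sub_self]
    rcases lt_or_gt_of_ne hxy with h | h
    · exact main x y h hf
    · exact main y x h hf.symm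
  obtain ⟨i, j, hij, hjp, c, hc⟩ := hpig
  obtain ⟨l, h1, h2, h3, h4⟩ := key i (j - i) (by omega)
  have hj : i + (j - i) = j := by omega
  rw [hj] at h2 h3 h4
  refine ⟨(Ico i j).biUnion K, ?_, ?_, ⟨l, h1, h2, ?_⟩, ?_⟩
  · intro x hx
    rw [Finset.mem_biUnion] at hx ⊢
    obtain ⟨k, hk, hxk⟩ := hx
    rw [Finset.mem_Ico] at hk
    exact ⟨K k, hKm k (by omega), hxk⟩
  · obtain ⟨x, hx⟩ := (hGood _ (hKm i (by omega))).1
    exact ⟨x, Finset.mem_biUnion.2 ⟨i, Finset.mem_Ico.2 ⟨le_refl _, hij⟩, hx⟩⟩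
  · rw [h3, hc, Subgroup.mem_zpowers_iff]
    exact ⟨c, by rw [← zpow_natCast, ← zpow_mul]⟩
  · refine h4.trans ?_
    rw [orderOf_pow_of_dvd hp.ne_zero hpa]
    have hpq : ((orderOf a / p : ℕ) : ℚ) = (orderOf a : ℚ) / (p : ℚ) :=
      Nat.cast_div hpa (by exact_mod_cast hp.ne_zero)
    rw [hpq]
    have h5 : ((j - i : ℕ) : ℚ) ≤ (p : ℚ) := by exact_mod_cast (by omega : j - i ≤ p)
    have h6 : (0 : ℚ) < (orderOf a : ℚ) := by exact_mod_cast ho
    rw [one_div_div, mul_one_div]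
    gcongr

end W998.ZS
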