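import Pool.Agent.W289.ZS.Stm

namespace W998.ZS

open Finset W289.ZS

universe u v

theorem sum_totient_pow {p : ℕ} (hp : p.Prime) (c : ℕ) :
    ∑ i ∈ range (c + 1), Nat.totient (p ^ i) = p ^ c := by
  induction c with
  | zero => simp
  | succ c ih =>
    rw [Finset.sum_range_succ, ih, Nat.totient_prime_pow_succ hp]
    obtain ⟨k, hk⟩ : ∃ k, p = k + 1 := ⟨p - 1, by have := hp.pos; omega⟩
    subst hk
    simp only [Nat.add_sub_cancel]
    ring

variable {ι : Type u} {V : Type v} [Fintype ι] [DecidableEq ι] [DecidableEq V]

omit [Fintype ι] [DecidableEq V] in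
theorem wt_eq (D : Dat ι V) {A : Finset ι} {q : ι} (hq : q ∈ A) (v : ι → V) :
    wt D A v = Nat.totient (D.p q ^ D.dep q (v q)) * wt D (A.erase q) v := by
  unfold wt
  rw [Finset.mul_prod_erase A (fun i => Nat.totient (D.p i ^ D.dep i (v i))) hq]

omit [Fintype ι] [DecidableEq ι] [DecidableEq V] in
theorem one_le_wt (D : Dat ι V) (hD : D.Pr) (A : Finset ι) (v : ι → V) : 1 ≤ wt D A v := by
  unfold wt
  apply Nat.succ_le_of_lt
  apply Finset.prod_pos
  intro i _
  exact Nat.totient_pos.2 (pow_pos (hD.prime i).pos _)

omit [Fintype ι] [DecidableEq V] in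
theorem wt_update (D : Dat ι V) (A : Finset ι) (q : ι) (u : ι → V) (x : V) :
    wt D (A.erase q) (Function.update u q x) = wt D (A.erase q) u := by
  unfold wt
  apply Finset.prod_congr rfl
  intro i hi
  rw [Function.update_of_ne (Finset.ne_of_mem_erase hi)]

omit [Fintype ι] [DecidableEq V] in
theorem chainX (D : Dat ι V) {A : Finset ι} {X : Finset (ι → V)} {r : ι → V}
    (hC : Cpx D A X r) {q : ι} {b : ℕ} (hq : q ∈ A) {Q : V} (hQb : D.dep q Q = b)
    {u : ι → V} (hu : u ∈ X) (huq : u q = Q) (j : ℕ) (hj : j ≤ b) :
    Function.update u q ((D.par q)^[j] Q) ∈ X ∧ D.dep q ((D.par q)^[j] Q) = b - j := by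
  induction j with
  | zero =>
    simp only [Function.iterate_zero, id_eq]
    refine ⟨?_, by omega⟩
    rw [← huq, Function.update_eq_self]; exact hu
  | succ j ih =>
    obtain ⟨h1, h2⟩ := ih (by omega)
    have h3 : 0 < D.dep q (Function.update u q ((D.par q)^[j] Q) q) := by
      rw [Function.update_self, h2]; omega
    have h4 := hC.down_mem _ h1 q hq h3
    have h5 := hC.dep_par _ h1 q hq h3
    rw [Function.update_self] at h5
    rw [Function.iterate_succ_apply']
    refine ⟨?_, by omega⟩
    unfold Dat.down at h4
    rw [Function.update_self, Function.update_idem] at h4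
    exact h4

theorem weights (hP : TaskPieces.{u,v}) : TaskWeights.{u,v} := by
  intro ι V _ _ _ D A X r hD hC q b hq hb hXb
  obtain ⟨P1, P2, P3, P4, P5, P6⟩ := hP ι V D A X r hD hC q b hq hb hXb
  have hpq := hD.prime q
  refine ⟨one_le_wt D hD A, ?_, ?_, ?_⟩
  · -- decomposition
    unfold NN Xlt
    rw [← Finset.sum_filter_add_sum_filter_not X (fun v => D.dep q (v q) < b)]
    congr 1
    have hmaps : ∀ v ∈ X.filter (fun v => ¬ D.dep q (v q) < b), v q ∈ Qs D q b X := by
      intro v hv
      rw [Finset.mem_filter] at hv
      unfold Qs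
      rw [Finset.mem_image]
      exact ⟨v, Finset.mem_filter.2 ⟨hv.1, by have := hXb v hv.1; omega⟩, rfl⟩
    rw [← Finset.sum_fiberwise_of_maps_to hmaps]
    apply Finset.sum_congr rfl
    intro Q hQ
    have hQb := P2 Q hQ
    have hfil : (X.filter (fun v => ¬ D.dep q (v q) < b)).filter (fun v => v q = Q)
        = YY q X Q := by
      unfold YY
      ext v
      simp only [Finset.mem_filter]
      constructor
      · rintro ⟨⟨h1, _⟩, h2⟩; exact ⟨h1, h2⟩
      · rintro ⟨h1, h2⟩
        refine ⟨⟨h1, ?_⟩, h2⟩
        rw [h2, hQb]; omega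
    rw [hfil, ← mul_assoc, Finset.mul_sum]
    apply Finset.sum_congr rfl
    intro v hv
    have hvq : v q = Q := by unfold YY at hv; exact (Finset.mem_filter.1 hv).2
    rw [wt_eq D hq v, hvq, hQb]
    congr 1
    obtain ⟨c, rfl⟩ : ∃ c, b = c + 1 := ⟨b - 1, by omega⟩
    rw [Nat.totient_prime_pow_succ hpq, Nat.add_sub_cancel, mul_comm]
  · -- the pieces ZZ
    intro Q hQ
    have hQb := P2 Q hQ
    unfold NN ZZ
    have hch : ∀ u ∈ YY q X Q, ∀ j < b, D.dep q ((D.par q)^[j + 1] Q) = b - 1 - j := by
      intro u hu j hj
      unfold YY at hu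
      rw [Finset.mem_filter] at hu
      have := (chainX D hC hq hQb hu.1 hu.2 (j + 1) (by omega)).2
      omega
    rw [Finset.sum_image]
    · rw [Finset.sum_product, Finset.mul_sum]
      apply Finset.sum_congr rfl
      intro u hu
      have h1 : ∀ j ∈ range b, wt D A (Function.update u q ((D.par q)^[j + 1] Q))
          = Nat.totient (D.p q ^ (b - 1 - j)) * wt D (A.erase q) u := by
        intro j hj
        rw [Finset.mem_range] at hj
        rw [wt_eq D hq, Function.update_self, hch u hu j hj, wt_update]
      have h2 : ∑ j ∈ range b, wt D A (Function.update u q ((D.par q)^[j + 1] Q))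
          = (∑ j ∈ range b, Nat.totient (D.p q ^ (b - 1 - j))) * wt D (A.erase q) u := by
        rw [Finset.sum_congr rfl h1, Finset.sum_mul]
      refine h2.trans ?_
      congr 1
      rw [Finset.sum_range_reflect (fun i => Nat.totient (D.p q ^ i)) b]
      obtain ⟨c, rfl⟩ : ∃ c, b = c + 1 := ⟨b - 1, by omega⟩
      rw [sum_totient_pow hpq, Nat.add_sub_cancel]
    · rintro ⟨u, j⟩ huj ⟨u', j'⟩ huj' h
      simp only [Finset.coe_product, Set.mem_prod, Finset.mem_coe, Finset.mem_range] at huj huj'
      simp only at h
      have hq1 := congrFun h q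
      simp only [Function.update_self] at hq1
      have hd1 := hch u huj.1 j huj.2
      have hd2 := hch u' huj'.1 j' huj'.2
      rw [hq1, hd2] at hd1
      have hjj : j = j' := by
        have := huj.2
        have := huj'.2
        omega
      subst hjj
      have hu1 : u q = Q := by have := huj.1; unfold YY at this; exact (Finset.mem_filter.1 this).2
      have hu2 : u' q = Q := by have := huj'.1; unfold YY at this; exact (Finset.mem_filter.1 this).2
      have : u = u' := by
        funext i
        by_cases hi : i = q
        · rw [hi, hu1, hu2]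
        · have := congrFun h i
          simp only [Function.update_of_ne hi] at this
          exact this
      rw [this]
  · -- the residual inequality
    intro hcase Q hQ
    have hCY := P3 Q hQ
    have hstep : ∀ v ∈ YY q X Q, 2 ≤ wt D (A.erase q) v +
        (if v = Function.update r q Q then 1 else 0) := by
      intro v hv
      have hvX : v ∈ X := by unfold YY at hv; exact (Finset.mem_filter.1 hv).1
      by_cases hvr : v = Function.update r q Q
      · rw [if_pos hvr]
        have := one_le_wt D hD (A.erase q) v
        omega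
      · rw [if_neg hvr]
        have hex : ∃ i ∈ A.erase q, 0 < D.dep i (v i) := by
          by_contra hno
          push Not at hno
          apply hvr
          funext i
          by_cases hi : i ∈ A.erase q
          · exact hCY.dep_zero v hv i hi (by have := hno i hi; omega)
          · exact hCY.frozen v hv i hi
        obtain ⟨i, hi, hdi⟩ := hex
        have hiq : i ≠ q := Finset.ne_of_mem_erase hi
        have hiA : i ∈ A := Finset.mem_of_mem_erase hi
        have hpi : D.p i ≠ 2 := by
          intro h2
          rcases hcase with h | h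
          · exact hiq (hD.inj (h2.trans h.symm))
          · have := h v hvX i hiA h2
            omega
        have hp3 : 3 ≤ D.p i := by
          have := (hD.prime i).two_le
          omega
        have htot : 2 ≤ Nat.totient (D.p i ^ D.dep i (v i)) := by
          obtain ⟨c, hc⟩ : ∃ c, D.dep i (v i) = c + 1 := ⟨D.dep i (v i) - 1, by omega⟩
          rw [hc, Nat.totient_prime_pow_succ (hD.prime i)]
          have h1 : 1 ≤ D.p i ^ c := Nat.one_le_pow _ _ (by omega)
          have h2 : 2 ≤ D.p i - 1 := by omega
          calc 2 = 1 * 2 := rfl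
            _ ≤ D.p i ^ c * (D.p i - 1) := Nat.mul_le_mul h1 h2
        rw [wt_eq D hi v]
        have h1 := one_le_wt D hD ((A.erase q).erase i) v
        calc 2 = 2 * 1 := rfl
          _ ≤ _ := Nat.mul_le_mul htot h1
    have hsum := Finset.sum_le_sum hstep
    rw [Finset.sum_const, smul_eq_mul, Finset.sum_add_distrib, Finset.sum_ite_eq'] at hsum
    have h3 : (if Function.update r q Q ∈ YY q X Q then 1 else 0) ≤ 1 := by split <;> omega
    unfold NN
    rw [mul_comm]
    omega

end W998.ZS
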